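import Pool.Agent.Helper808.SchN

set_option autoImplicit false

open scoped InnerProductSpace ENNReal
open Module

namespace Pool.Agent.Results.MP_f41f1b_an.NoDilation

open SchattenDil

universe u

section defs

variable {p : ℝ} [Fact (1 ≤ p)] {H : Type u} [NormedAddCommGroup H] [InnerProductSpace ℂ H]
  [CompleteSpace H]

/-- `T` is an absolute `S_p`-contraction: it maps `S_1` into `S_1` and is a contraction there for
the trace norm, and it is a contraction for the operator norm.  (`x.op` is the operator on `H`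
underlying an element `x` of `S_p`, and `S_1 ⊆ S_p`, see `memSchatten_of_one`.) -/
def IsAbsoluteContraction (T : Sp p H →L[ℂ] Sp p H) : Prop :=
  (∀ x : Sp p H, MemSchatten 1 x.op →
    MemSchatten 1 (T x).op ∧ schattenNorm 1 (T x).op ≤ schattenNorm 1 x.op) ∧
  (∀ x : Sp p H, ‖(T x).op‖ ≤ ‖x.op‖)

/-- `T` has an isometric dilation on `S_p`: there are a linear isometric embedding `J` of `S_p`
into `S_p`, a projection `P` of norm one of `S_p` onto `J(S_p)` and a linear isometry `U` of `S_p`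
with `P U^n J = J T^n` for all `n ≥ 0`. -/
def HasIsometricDilation (T : Sp p H →L[ℂ] Sp p H) : Prop :=
  ∃ (J : Sp p H →ₗᵢ[ℂ] Sp p H) (P : Sp p H →L[ℂ] Sp p H) (U : Sp p H →ₗᵢ[ℂ] Sp p H),
    ‖P‖ = 1 ∧ (∀ x, P (P x) = P x) ∧ Set.range P = Set.range J ∧
    ∀ (n : ℕ) (x : Sp p H), P (U^[n] (J x)) = J (T^[n] x)

end defs

section

variable {H : Type u} [NormedAddCommGroup H] [InnerProductSpace ℂ H]

/-- `S_1 ⊆ S_p`. -/
lemma memSchatten_of_one {p : ℝ} (hp : 1 ≤ p) {x : H →L[ℂ] H} (hx : MemSchatten 1 x) :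
    MemSchatten p x := by
  refine ⟨hx.1, ?_⟩
  have h1 := hx.2
  simp only [Real.rpow_one] at h1
  refine Summable.of_nonneg_of_le (fun n => Real.rpow_nonneg (sNum_nonneg _ _) _) (fun n => ?_)
    (h1.mul_left (‖x‖ ^ (p - 1)))
  rcases (sNum_nonneg x n).eq_or_lt with h0 | h0
  · rw [← h0, Real.zero_rpow (by linarith)]; simp
  · have h2 : sNum x n ^ p = sNum x n ^ (p - 1) * sNum x n := by
      rw [Real.rpow_sub_one h0.ne']; field_simp
    rw [h2]
    have h3 := Real.rpow_le_rpow (sNum_nonneg x n) (sNum_le_norm x n)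
      (show 0 ≤ p - 1 by linarith)
    exact mul_le_mul_of_nonneg_right h3 h0.le

variable {κ : Type*}

/-- the rank two operator `α e_i ⊗ e_i + β e_j ⊗ e_j` -/
noncomputable def diag2 (b : HilbertBasis κ ℂ H) (i j : κ) (α β : ℂ) : H →L[ℂ] H :=
  α • (innerSL ℂ (b i)).smulRight (b i) + β • (innerSL ℂ (b j)).smulRight (b j)

lemma diag2_apply (b : HilbertBasis κ ℂ H) (i j : κ) (α β : ℂ) (v : H) :
    diag2 b i j α β v = (α * ⟪b i, v⟫_ℂ) • b i + (β * ⟪b j, v⟫_ℂ) • b j := by
  simp [diag2, smul_smul]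

lemma compact_diag2 (b : HilbertBasis κ ℂ H) (i j : κ) (α β : ℂ) :
    IsCompactOperator (diag2 b i j α β) :=
  ((compact_rankOne _ _).smul α).add ((compact_rankOne _ _).smul β)

lemma diag2_basis [DecidableEq κ] (b : HilbertBasis κ ℂ H) {i j : κ} (hij : i ≠ j) (α β : ℂ)
    (k : κ) : diag2 b i j α β (b k)
      = if k = i then α • b i else if k = j then β • b j else 0 := by
  rw [diag2_apply]
  simp_rw [orthonormal_iff_ite.1 b.orthonormal]
  by_cases h1 : k = i
  · subst h1
    simp [hij.symm]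
  · by_cases h2 : k = j
    · subst h2
      simp [hij, h1]
    · simp [h1, h2, Ne.symm h1, Ne.symm h2]

lemma isDiag_diag2 (b : HilbertBasis κ ℂ H) {i j : κ} (hij : i ≠ j) (α β : ℂ) :
    IsDiag (diag2 b i j α β) b := by
  classical
  intro k l hkl
  rw [diag2_basis b hij, diag2_basis b hij]
  have horth := orthonormal_iff_ite.1 b.orthonormal
  split_ifs <;> simp_all

lemma energy_diag2 (b : HilbertBasis κ ℂ H) {i j : κ} (hij : i ≠ j) (α β : ℂ) {p : ℝ}
    (hp : 0 < p) :
    energy p (diag2 b i j α β) = ENNReal.ofReal (‖α‖ ^ p) + ENNReal.ofReal (‖β‖ ^ p) := by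
  classical
  rw [(isDiag_diag2 b hij α β).energy_eq (compact_diag2 b i j α β) hp,
    tsum_eq_sum (s := {i, j})]
  · rw [Finset.sum_pair hij, diag2_basis b hij, diag2_basis b hij]
    simp [hij.symm, norm_smul, b.orthonormal.1]
  · intro k hk
    simp only [Finset.mem_insert, Finset.mem_singleton, not_or] at hk
    rw [diag2_basis b hij, if_neg hk.1, if_neg hk.2, norm_zero, Real.zero_rpow hp.ne',
      ENNReal.ofReal_zero]

lemma mem_diag2 (b : HilbertBasis κ ℂ H) {i j : κ} (hij : i ≠ j) (α β : ℂ) {p : ℝ}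
    (hp : 0 < p) : MemSchatten p (diag2 b i j α β) := by
  rw [memSchatten_iff]
  refine ⟨compact_diag2 b i j α β, ?_⟩
  rw [energy_diag2 b hij α β hp]
  exact ENNReal.add_ne_top.2 ⟨ENNReal.ofReal_ne_top, ENNReal.ofReal_ne_top⟩

end

section main

variable {p : ℝ} [hpf : Fact (1 ≤ p)] {H : Type u} [NormedAddCommGroup H] [InnerProductSpace ℂ H]
  [CompleteSpace H] {κ : Type*}

/-- half the trace of the `2 × 2` corner -/
noncomputable def phi (b : HilbertBasis κ ℂ H) (i j : κ) (x : H →L[ℂ] H) : ℂ :=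
  (1 / 2 : ℂ) * (⟪b i, x (b i)⟫_ℂ + ⟪b j, x (b j)⟫_ℂ)

omit [CompleteSpace H] in
lemma norm_phi_le (b : HilbertBasis κ ℂ H) (i j : κ) (x : H →L[ℂ] H) :
    ‖phi b i j x‖ ≤ ‖x‖ := by
  have h1 : ∀ k, ‖⟪b k, x (b k)⟫_ℂ‖ ≤ ‖x‖ := by
    intro k
    have h2 := norm_inner_le_norm (𝕜 := ℂ) (b k) (x (b k))
    have h3 := x.le_opNorm (b k)
    rw [b.orthonormal.1 k, one_mul] at h2
    rw [b.orthonormal.1 k, mul_one] at h3
    exact h2.trans h3
  rw [phi, norm_mul]
  have h2 : ‖(1 / 2 : ℂ)‖ = 1 / 2 := by simp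
  rw [h2]
  have := norm_add_le (⟪b i, x (b i)⟫_ℂ) (⟪b j, x (b j)⟫_ℂ)
  linarith [h1 i, h1 j]

/-- The contraction `T x = (1/2) tr (e x e) e`, with `e` a projection of rank two. -/
noncomputable def avg (p : ℝ) [hpf : Fact (1 ≤ p)] (b : HilbertBasis κ ℂ H) {i j : κ}
    (hij : i ≠ j) : Sp p H →L[ℂ] Sp p H :=
  LinearMap.mkContinuous
    { toFun := fun x => phi b i j x.op • Sp.mk (diag2 b i j 1 1) (mem_diag2 b hij 1 1 Sp.pos)
      map_add' := fun x y => by
        rw [← add_smul]
        congr 1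
        simp only [phi, Sp.op_add, add_apply, inner_add_right]
        ring
      map_smul' := fun c x => by
        rw [RingHom.id_apply, smul_smul]
        congr 1
        simp only [phi, Sp.op_smul, smul_apply, inner_smul_right]
        ring }
    ‖(Sp.mk (diag2 b i j 1 1) (mem_diag2 b hij 1 1 Sp.pos) : Sp p H)‖ (by
      intro x
      simp only [LinearMap.coe_mk, AddHom.coe_mk]
      rw [norm_smul, mul_comm]
      gcongr
      exact (norm_phi_le b i j x.op).trans (x.mem.norm_le Sp.pos))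

lemma avg_apply (b : HilbertBasis κ ℂ H) {i j : κ} (hij : i ≠ j) (x : Sp p H) :
    avg p b hij x = phi b i j x.op • Sp.mk (diag2 b i j 1 1) (mem_diag2 b hij 1 1 Sp.pos) := rfl

omit [CompleteSpace H] in
lemma phi_diag2 (b : HilbertBasis κ ℂ H) {i j : κ} (hij : i ≠ j) (α β : ℂ) :
    phi b i j (diag2 b i j α β) = (1 / 2) * (α + β) := by
  classical
  rw [phi, diag2_basis b hij, diag2_basis b hij]
  simp [hij.symm, b.orthonormal.1]

omit [CompleteSpace H] in
lemma norm_diag2_le (b : HilbertBasis κ ℂ H) {i j : κ} (hij : i ≠ j) :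
    ‖diag2 b i j 1 1‖ ≤ 1 := by
  classical
  have h := (isDiag_diag2 b hij 1 1).norm_sub_trunc_sq_le ∅ 1 zero_le_one (fun k _ => by
    rw [diag2_basis b hij]
    split_ifs <;> simp [b.orthonormal.1])
  have h2 : trunc b (∅ : Finset κ) = 0 := by simp [trunc]
  rw [h2] at h
  simpa using h

lemma isAbsoluteContraction_avg (b : HilbertBasis κ ℂ H) {i j : κ} (hij : i ≠ j) :
    IsAbsoluteContraction (avg p b hij) := by
  classical
  refine ⟨fun x hx => ?_, fun x => ?_⟩
  · have hop : (avg p b hij x).op = phi b i j x.op • diag2 b i j 1 1 := rfl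
    have hmem : MemSchatten 1 (avg p b hij x).op := by
      rw [hop]
      exact (mem_diag2 b hij 1 1 one_pos).smul zero_le_one _
    refine ⟨hmem, ?_⟩
    obtain ⟨κ1, b1, hb1⟩ := exists_isDiag x.op hx.1
    have hV := V1 hb1 hx.1 b.orthonormal b.orthonormal (le_refl (1 : ℝ))
    have h1 : energy 1 (avg p b hij x).op ≤ energy 1 x.op := by
      refine le_trans ?_ ((ENNReal.sum_le_tsum {i, j}).trans hV)
      rw [hop, energy_smul zero_le_one, energy_diag2 b hij 1 1 one_pos, Finset.sum_pair hij]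
      simp only [Real.rpow_one, norm_one, ENNReal.ofReal_one]
      rw [← ENNReal.ofReal_add (norm_nonneg _) (norm_nonneg _), one_add_one_eq_two,
        show (2 : ℝ≥0∞) = ENNReal.ofReal 2 by norm_num, ← ENNReal.ofReal_mul (norm_nonneg _)]
      apply ENNReal.ofReal_le_ofReal
      rw [phi, norm_mul]
      have h2 : ‖(1 / 2 : ℂ)‖ = 1 / 2 := by simp
      rw [h2]
      have := norm_add_le (⟪b i, x.op (b i)⟫_ℂ) (⟪b j, x.op (b j)⟫_ℂ)
      linarith
    rw [hmem.energy_eq_norm one_pos, hx.energy_eq_norm one_pos] at h1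
    simp only [Real.rpow_one] at h1
    exact (ENNReal.ofReal_le_ofReal_iff (schattenNorm_nonneg _ _)).1 h1
  · have hop : (avg p b hij x).op = phi b i j x.op • diag2 b i j 1 1 := rfl
    rw [hop, norm_smul]
    calc ‖phi b i j x.op‖ * ‖diag2 b i j 1 1‖ ≤ ‖x.op‖ * 1 := by
          gcongr
          · exact norm_phi_le b i j x.op
          · exact norm_diag2_le b hij
      _ = _ := mul_one _

/-- iterates of a linear isometry -/
lemma iterate_isometry (U : Sp p H →ₗᵢ[ℂ] Sp p H) (n : ℕ) :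
    ∃ V : Sp p H →ₗᵢ[ℂ] Sp p H, ∀ x, U^[n] x = V x := by
  induction n with
  | zero => exact ⟨LinearIsometry.id, fun x => rfl⟩
  | succ n ih =>
    obtain ⟨V, hV⟩ := ih
    refine ⟨V.comp U, fun x => ?_⟩
    rw [Function.iterate_succ_apply, hV]
    rfl

lemma energy_op (x : Sp p H) : energy p x.op = ENNReal.ofReal (‖x‖ ^ p) :=
  x.mem.energy_eq_norm Sp.pos

open ContinuousLinearMap in
theorem no_dilation (b : HilbertBasis κ ℂ H) {i j : κ} (hij : i ≠ j) (hp1 : 1 < p) (hp2 : p ≠ 2) :
    ¬ HasIsometricDilation (avg p b hij) := by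
  classical
  have hp0 : 0 < p := by linarith
  rintro ⟨J, P, U, hP, hPP, hrange, hdil⟩
  set T := avg p b hij with hT
  set e : Sp p H := Sp.mk (diag2 b i j 1 1) (mem_diag2 b hij 1 1 hp0) with he
  set E1 : Sp p H := Sp.mk (diag2 b i j 1 0) (mem_diag2 b hij 1 0 hp0) with hE1
  set E2 : Sp p H := Sp.mk (diag2 b i j 0 1) (mem_diag2 b hij 0 1 hp0) with hE2
  -- the action of `T`
  have hTx : ∀ x : Sp p H, T x = phi b i j x.op • e := fun x => rfl
  have hTe : T e = e := by
    rw [hTx, he, Sp.op_mk, phi_diag2 b hij]; norm_num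
  have hTE1 : T E1 = (1 / 2 : ℂ) • e := by
    rw [hTx, hE1, Sp.op_mk, phi_diag2 b hij]; norm_num
  have hTiter : ∀ n : ℕ, T^[n + 1] E1 = (1 / 2 : ℂ) • e := by
    intro n
    induction n with
    | zero => simpa using hTE1
    | succ n ih => rw [Function.iterate_succ_apply', ih, map_smul, hTe]
  have hsum : E1 + E2 = e := by
    apply Sp.op_injective
    rw [Sp.op_add, hE1, hE2, he, Sp.op_mk, Sp.op_mk, Sp.op_mk]
    ext v
    simp only [add_apply, diag2_apply]
    simp
  -- basic facts on `P`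
  have hPJ : ∀ x, P (J x) = J x := by
    intro x
    have : J x ∈ Set.range P := by rw [hrange]; exact ⟨x, rfl⟩
    obtain ⟨v, hv⟩ := this
    rw [← hv, hPP]
  have hPle : ∀ x, ‖P x‖ ≤ ‖x‖ := by
    intro x
    have := P.le_opNorm x
    rwa [hP, one_mul] at this
  set W := J e with hW
  -- `U` fixes `W`
  have hUW : U W = W := by
    have h1 := hdil 1 e
    simp only [Function.iterate_one] at h1
    rw [hTe, ← hW] at h1
    have h2 : P ((1 / 2 : ℂ) • (W + U W)) = W := by
      rw [map_smul, map_add, h1, hPJ, ← hW, ← two_smul ℂ, smul_smul]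
      norm_num
    have h3 : ‖W‖ ≤ ‖(1 / 2 : ℂ) • (W + U W)‖ := by
      conv_lhs => rw [← h2]
      exact hPle _
    have h4 : W.op = (U W).op := by
      refine strict_conv W.mem.1 (U W).mem.1 hp1 (E := ENNReal.ofReal (‖W‖ ^ p))
        ENNReal.ofReal_ne_top ?_ ?_ ?_
      · rw [energy_op]
      · rw [energy_op, U.norm_map]
      · have h5 := energy_op ((1 / 2 : ℂ) • (W + U W))
        rw [Sp.op_smul, Sp.op_add] at h5
        rw [h5]
        apply ENNReal.ofReal_le_ofReal
        exact Real.rpow_le_rpow (norm_nonneg _) h3 hp0.le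
    exact (Sp.op_injective h4).symm
  have hUWn : ∀ n, U^[n] W = W := fun n => Function.iterate_fixed hUW n
  choose V hV using fun n => iterate_isometry U n
  have hWsum : W = J E1 + J E2 := by rw [hW, ← hsum, map_add]
  set x : ℕ → H →L[ℂ] H := fun n => (V n (J E1)).op with hx
  have hy : ∀ n, W.op - x n = (V n (J E2)).op := by
    intro n
    have h1 : W = V n (J E1) + V n (J E2) := by
      rw [← map_add, ← hWsum, ← hV, hUWn]
    rw [hx]
    simp only
    conv_lhs => rw [h1]
    simp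
  -- energies
  have hen : ∀ n (c : ℂ), energy p (x n + c • (W.op - x n))
      = ENNReal.ofReal (‖(1 : ℂ)‖ ^ p) + ENNReal.ofReal (‖c‖ ^ p) := by
    intro n c
    rw [hy]
    have h1 : x n + c • (V n (J E2)).op = (V n (J (E1 + c • E2))).op := by
      rw [map_add, map_smul, map_add, map_smul]
      rfl
    have h2 : (E1 + c • E2).op = diag2 b i j 1 c := by
      rw [Sp.op_add, Sp.op_smul, hE1, hE2, Sp.op_mk, Sp.op_mk]
      ext v
      simp only [add_apply, smul_apply, diag2_apply]
      simp [smul_smul]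
    rw [h1, energy_op, LinearIsometry.norm_map, LinearIsometry.norm_map, ← energy_op, h2,
      energy_diag2 b hij _ _ hp0]
  have henx : ∀ n, energy p (x n) = 1 := by
    intro n
    have h1 : energy p (x n) = energy p E1.op := by
      rw [hx]
      simp only
      rw [energy_op, LinearIsometry.norm_map, LinearIsometry.norm_map, ← energy_op]
    rw [h1, hE1, Sp.op_mk, energy_diag2 b hij _ _ hp0]
    simp [hp0.ne']
  have heny : ∀ n, energy p (W.op - x n) = 1 := by
    intro n
    rw [hy]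
    have h1 : energy p (V n (J E2)).op = energy p E2.op := by
      rw [energy_op, LinearIsometry.norm_map, LinearIsometry.norm_map, ← energy_op]
    rw [h1, hE2, Sp.op_mk, energy_diag2 b hij _ _ hp0]
    simp [hp0.ne']
  have hE : ∀ n (c : ℂ), energy p (x n + c • (W.op - x n))
      = energy p (x n) + ENNReal.ofReal (‖c‖ ^ p) * energy p (W.op - x n) := by
    intro n c
    rw [hen, henx, heny]
    simp
  have hxc : ∀ n, IsCompactOperator (x n) := fun n => (V n (J E1)).mem.1
  have hyc : ∀ n, IsCompactOperator (W.op - x n) := fun n => by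
    rw [hy]; exact (V n (J E2)).mem.1
  have hd1 : ∀ n, (W.op - x n) ∘L adjoint (x n) = 0 := fun n =>
    disjoint_half (hxc n) (hyc n) hp1 hp2 (by rw [henx]; simp) (by rw [heny]; simp) (hE n)
  have hd2 : ∀ n, adjoint (W.op - x n) ∘L x n = 0 := fun n =>
    disjoint_other (hxc n) (hyc n) hp1 hp2 (by rw [henx]; simp) (by rw [heny]; simp) (hE n)
  -- recurrence
  have hne : E1 - (1 / 2 : ℂ) • e ≠ 0 := by
    intro h0
    have h1 : (E1 - (1 / 2 : ℂ) • e).op (b i) = 0 := by rw [h0]; rfl
    have h2 : (E1 - (1 / 2 : ℂ) • e).op (b i) = (1 / 2 : ℂ) • b i := by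
      rw [Sp.op_sub, Sp.op_smul, hE1, he, Sp.op_mk, Sp.op_mk]
      simp only [sub_apply, smul_apply]
      rw [diag2_basis b hij, diag2_basis b hij, if_pos rfl, if_pos rfl, one_smul]
      have : b i - (1 / 2 : ℂ) • b i = ((1 : ℂ) - 1 / 2) • b i := by rw [sub_smul, one_smul]
      rw [this]
      norm_num
    rw [h2] at h1
    have h3 := congrArg norm h1
    rw [norm_smul, b.orthonormal.1 i] at h3
    norm_num at h3
  have hε : 0 < ‖E1 - (1 / 2 : ℂ) • e‖ := norm_pos_iff.2 hne
  obtain ⟨n, m, hnm, hlt⟩ := recur W.mem.1 hp1.le (by rw [energy_op]; exact ENNReal.ofReal_ne_top)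
    x hxc hd1 hd2 hε
  obtain ⟨k, rfl⟩ : ∃ k, m = n + (k + 1) := ⟨m - n - 1, by omega⟩
  have h1 : x n - x (n + (k + 1)) = (V n (J E1 - U^[k + 1] (J E1))).op := by
    rw [map_sub, Sp.op_sub]
    congr 1
    rw [hx]
    simp only
    rw [← hV, ← hV, ← Function.iterate_add_apply]
  rw [h1, energy_op, LinearIsometry.norm_map, ENNReal.ofReal_rpow_of_nonneg (by positivity)
    (by positivity), ← Real.rpow_mul (norm_nonneg _), mul_one_div_cancel hp0.ne', Real.rpow_one,
    ENNReal.ofReal_lt_ofReal_iff hε] at hlt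
  have h2 : P (J E1 - U^[k + 1] (J E1)) = J (E1 - (1 / 2 : ℂ) • e) := by
    rw [map_sub, hPJ, hdil, hTiter, map_sub]
  have h3 := hPle (J E1 - U^[k + 1] (J E1))
  rw [h2, LinearIsometry.norm_map] at h3
  linarith

end main

/-- For every `p ∈ (1, ∞)` with `p ≠ 2` there is an absolute `S_p`-contraction without isometric
dilation on `S_p`; here `S_p = S_p(H)` for an arbitrary infinite dimensional complex Hilbert space
`H`, separable or not. -/
theorem result : ∀ (p : ℝ) [Fact (1 ≤ p)], 1 < p → p ≠ 2 →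
    ∀ (H : Type u) [NormedAddCommGroup H] [InnerProductSpace ℂ H] [CompleteSpace H],
      ¬ FiniteDimensional ℂ H →
        ∃ T : Sp p H →L[ℂ] Sp p H, IsAbsoluteContraction T ∧ ¬ HasIsometricDilation T := by
  intro p _ hp1 hp2 H _ _ _ hH
  obtain ⟨w, b, -⟩ := exists_hilbertBasis ℂ H
  have hinf : Infinite w := by
    by_contra hfin
    rw [not_infinite_iff_finite] at hfin
    have : Fintype w := Fintype.ofFinite w
    apply hH
    exact Module.Basis.finiteDimensional_of_finite b.toOrthonormalBasis.toBasis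
  obtain ⟨i, j, hij⟩ := exists_pair_ne w
  exact ⟨avg p b hij, isAbsoluteContraction_avg b hij, no_dilation b hij hp1 hp2⟩

end Pool.Agent.Results.MP_f41f1b_an.NoDilation
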