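import Pool.Agent.Helper808.SchO

set_option autoImplicit false

open Module

namespace Pool.Agent.Results.MP_f41f1b_an.NoIsoDilation

open SchattenDil

universe u

section defs

variable {H : Type u} [NormedAddCommGroup H] [InnerProductSpace ℂ H]

/-- `T` is a bounded linear map of `S_p` into itself for the Schatten norm (its values outside `S_p`
are irrelevant). -/
def IsSpOperator (p : ℝ) (T : (H →L[ℂ] H) → (H →L[ℂ] H)) : Prop :=
  (∀ x, MemSchatten p x → MemSchatten p (T x)) ∧
  (∀ x y, MemSchatten p x → MemSchatten p y → T (x + y) = T x + T y) ∧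
  (∀ (c : ℂ) x, MemSchatten p x → T (c • x) = c • T x) ∧
  ∃ C : ℝ, ∀ x, MemSchatten p x → schattenNorm p (T x) ≤ C * schattenNorm p x

/-- `T` is an absolute `S_p`-contraction: it maps `S_1` into `S_1` and is a contraction there for
the trace norm, and it is a contraction of `S_p` for the operator norm. -/
def IsAbsoluteContraction (p : ℝ) (T : (H →L[ℂ] H) → (H →L[ℂ] H)) : Prop :=
  (∀ x, MemSchatten 1 x → MemSchatten 1 (T x) ∧ schattenNorm 1 (T x) ≤ schattenNorm 1 x) ∧
  (∀ x, MemSchatten p x → ‖T x‖ ≤ ‖x‖)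

/-- `U` is a linear isometry of `S_p` into itself. -/
def IsSpIsometry (p : ℝ) (U : (H →L[ℂ] H) → (H →L[ℂ] H)) : Prop :=
  IsSpOperator p U ∧ ∀ x, MemSchatten p x → schattenNorm p (U x) = schattenNorm p x

/-- `P` is a projection of norm at most one of `S_p` onto `J(S_p)`. -/
def IsContractiveProjectionOnto (p : ℝ) (P J : (H →L[ℂ] H) → (H →L[ℂ] H)) : Prop :=
  IsSpOperator p P ∧ (∀ x, MemSchatten p x → schattenNorm p (P x) ≤ schattenNorm p x) ∧
  (∀ x, MemSchatten p x → ∃ y, MemSchatten p y ∧ P x = J y) ∧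
  (∀ y, MemSchatten p y → P (J y) = J y)

/-- `T` has an isometric dilation on `S_p`: there are a linear isometric embedding `J` of `S_p`
into `S_p`, a projection `P` of norm at most one of `S_p` onto `J(S_p)` and a linear isometry `U`
of `S_p` with `P U^n J = J T^n` for all `n ≥ 0`. -/
def HasIsometricDilation (p : ℝ) (T : (H →L[ℂ] H) → (H →L[ℂ] H)) : Prop :=
  ∃ J P U : (H →L[ℂ] H) → (H →L[ℂ] H),
    IsSpIsometry p J ∧ IsContractiveProjectionOnto p P J ∧ IsSpIsometry p U ∧
    ∀ (n : ℕ) (x : H →L[ℂ] H), MemSchatten p x → P (U^[n] (J x)) = J (T^[n] x)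

end defs

section

variable {p : ℝ} [hpf : Fact (1 ≤ p)] {H : Type u} [NormedAddCommGroup H] [InnerProductSpace ℂ H]
  [CompleteSpace H]

/-- the map of `S_p` given by an `S_p`-operator -/
noncomputable def toLin {T : (H →L[ℂ] H) → (H →L[ℂ] H)} (hT : IsSpOperator p T) :
    Sp p H →ₗ[ℂ] Sp p H where
  toFun x := Sp.mk (T x.op) (hT.1 _ x.mem)
  map_add' x y := Sp.op_injective (hT.2.1 _ _ x.mem y.mem)
  map_smul' c x := Sp.op_injective (hT.2.2.1 c _ x.mem)

lemma toLin_op {T : (H →L[ℂ] H) → (H →L[ℂ] H)} (hT : IsSpOperator p T) (x : Sp p H) :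
    (toLin hT x).op = T x.op := rfl

noncomputable def toIso {U : (H →L[ℂ] H) → (H →L[ℂ] H)} (hU : IsSpIsometry p U) :
    Sp p H →ₗᵢ[ℂ] Sp p H where
  toLinearMap := toLin hU.1
  norm_map' x := hU.2 _ x.mem

lemma toIso_op {U : (H →L[ℂ] H) → (H →L[ℂ] H)} (hU : IsSpIsometry p U) (x : Sp p H) :
    (toIso hU x).op = U x.op := rfl

lemma toIso_iter_op {U : (H →L[ℂ] H) → (H →L[ℂ] H)} (hU : IsSpIsometry p U) (n : ℕ)
    (x : Sp p H) : ((toIso hU)^[n] x).op = U^[n] x.op := by
  induction n with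
  | zero => rfl
  | succ n ih => rw [Function.iterate_succ_apply', Function.iterate_succ_apply', toIso_op, ih]

variable {κ : Type*}

/-- the contraction `x ↦ (1/2) tr (e x e) e` on all bounded operators -/
noncomputable def avgFun (b : HilbertBasis κ ℂ H) (i j : κ) : (H →L[ℂ] H) → (H →L[ℂ] H) :=
  fun x => Core.phi b i j x • Core.diag2 b i j 1 1

lemma avg_op (b : HilbertBasis κ ℂ H) {i j : κ} (hij : i ≠ j) (x : Sp p H) :
    (Core.avg p b hij x).op = avgFun b i j x.op := rfl

lemma avg_iter_op (b : HilbertBasis κ ℂ H) {i j : κ} (hij : i ≠ j) (n : ℕ) (x : Sp p H) :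
    ((Core.avg p b hij)^[n] x).op = (avgFun b i j)^[n] x.op := by
  induction n with
  | zero => rfl
  | succ n ih => rw [Function.iterate_succ_apply', Function.iterate_succ_apply', avg_op, ih]

end

/-- For every `p ∈ (1, ∞)` with `p ≠ 2` there is an absolute `S_p`-contraction without isometric
dilation on `S_p`; here `S_p = S_p(H)` for an arbitrary infinite dimensional complex Hilbert space
`H`, separable or not. -/
theorem result : ∀ p : ℝ, 1 < p → p ≠ 2 →
    ∀ (H : Type u) [NormedAddCommGroup H] [InnerProductSpace ℂ H] [CompleteSpace H],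
      ¬ FiniteDimensional ℂ H →
        ∃ T : (H →L[ℂ] H) → (H →L[ℂ] H),
          IsSpOperator p T ∧ IsAbsoluteContraction p T ∧ ¬ HasIsometricDilation p T := by
  intro p hp1 hp2 H _ _ _ hH
  have hpf : Fact (1 ≤ p) := ⟨hp1.le⟩
  obtain ⟨w, b, -⟩ := exists_hilbertBasis ℂ H
  have hinf : Infinite w := by
    by_contra hfin
    rw [not_infinite_iff_finite] at hfin
    have : Fintype w := Fintype.ofFinite w
    apply hH
    exact Module.Basis.finiteDimensional_of_finite b.toOrthonormalBasis.toBasis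
  obtain ⟨i, j, hij⟩ := exists_pair_ne w
  refine ⟨avgFun b i j, ?_, ?_, ?_⟩
  · refine ⟨fun x hx => (Core.avg p b hij (Sp.mk x hx)).mem, fun x y hx hy => ?_,
      fun c x hx => ?_, ‖Core.avg p b hij‖, fun x hx => (Core.avg p b hij).le_opNorm (Sp.mk x hx)⟩
    · have := congrArg Sp.op (map_add (Core.avg p b hij) (Sp.mk x hx) (Sp.mk y hy))
      exact this
    · have := congrArg Sp.op (map_smul (Core.avg p b hij) c (Sp.mk x hx))
      exact this
  · refine ⟨fun x hx => ?_, fun x hx => (Core.abs_avg b hij).2 (Sp.mk x hx)⟩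
    exact (Core.abs_avg b hij).1 (Sp.mk x (Core.memSchatten_of_one hp1.le hx)) hx
  · rintro ⟨J, P, U, hJ, hP, hU, hdil⟩
    refine Core.core b hij hp1 hp2 (toIso hJ) (toIso hU) (toLin hP.1)
      (fun x => hP.2.1 _ x.mem) (fun x => ?_) (fun n x => ?_)
    · apply Sp.op_injective
      exact hP.2.2.2 _ x.mem
    · apply Sp.op_injective
      rw [toLin_op, toIso_iter_op, toIso_op, toIso_op, avg_iter_op]
      exact hdil n _ x.mem

end Pool.Agent.Results.MP_f41f1b_an.NoIsoDilation
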